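import Mathlib

/-!
# Monotone solutions of `φ' = F(φ)` by quadrature
-/

namespace Pool.Agent.H86.PE

open MeasureTheory Set Filter Real
open scoped Topology

/-- If `F` is continuous with `0 < m ≤ F ≤ M`, then `φ' = F(φ)`, `φ(0) = 0` has a global solution,
which is onto and strictly increasing. -/
theorem exists_quad (F : ℝ → ℝ) (hF : Continuous F) (m M : ℝ) (hm : 0 < m)
    (h1 : ∀ y, m ≤ F y) (h2 : ∀ y, F y ≤ M) :
    ∃ φ : ℝ → ℝ, φ 0 = 0 ∧ StrictMono φ ∧ Function.Surjective φ ∧
      ∀ x, HasDerivAt φ (F (φ x)) x := by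
  have hM : 0 < M := lt_of_lt_of_le hm ((h1 0).trans (h2 0))
  have hpos : ∀ y, 0 < F y := fun y => lt_of_lt_of_le hm (h1 y)
  have hG : Continuous fun y => (F y)⁻¹ := hF.inv₀ fun y => (hpos y).ne'
  set X : ℝ → ℝ := fun y => ∫ t in (0 : ℝ)..y, (F t)⁻¹ with hX
  have hXd : ∀ y, HasDerivAt X (F y)⁻¹ y := fun y =>
    intervalIntegral.integral_hasDerivAt_right (hG.intervalIntegrable _ _)
      (hG.stronglyMeasurableAtFilter _ _) hG.continuousAt
  have hX0 : X 0 = 0 := by simp [hX]
  have hmono : StrictMono X := strictMono_of_deriv_pos fun y => by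
    rw [(hXd y).deriv]; exact inv_pos.mpr (hpos y)
  have hXc : Continuous X := continuous_iff_continuousAt.2 fun y => (hXd y).continuousAt
  -- comparison with a linear function
  have hcmp : Monotone fun y => X y - M⁻¹ * y := by
    refine monotone_of_deriv_nonneg (fun y => ?_) (fun y => ?_)
    · exact ((hXd y).sub ((hasDerivAt_id y).const_mul M⁻¹)).differentiableAt
    · have h3 : HasDerivAt (fun y => X y - M⁻¹ * y) ((F y)⁻¹ - M⁻¹ * 1) y :=
        (hXd y).sub ((hasDerivAt_id y).const_mul M⁻¹)
      rw [h3.deriv]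
      have : M⁻¹ ≤ (F y)⁻¹ := inv_anti₀ (hpos y) (h2 y)
      linarith
  have htop : Tendsto X atTop atTop := by
    refine tendsto_atTop_mono' atTop ?_ (tendsto_id.const_mul_atTop (inv_pos.mpr hM))
    filter_upwards [eventually_ge_atTop 0] with y hy
    have := hcmp hy
    simp only [hX0, mul_zero, sub_zero] at this
    simp only [id]
    linarith
  have hbot : Tendsto X atBot atBot := by
    refine tendsto_atBot_mono' atBot ?_ (tendsto_id.const_mul_atBot (inv_pos.mpr hM))
    filter_upwards [eventually_le_atBot 0] with y hy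
    have := hcmp hy
    simp only [hX0, mul_zero, sub_zero] at this
    simp only [id]
    linarith
  have hsurj : Function.Surjective X := hXc.surjective htop hbot
  let e : ℝ ≃o ℝ := StrictMono.orderIsoOfSurjective X hmono hsurj
  have he : ∀ y, e y = X y := fun y => rfl
  refine ⟨e.symm, ?_, e.symm.strictMono, e.symm.surjective, fun x => ?_⟩
  · rw [OrderIso.symm_apply_eq, he, hX0]
  · have h4 := HasDerivAt.of_local_left_inverse (f := X) (g := e.symm) (a := x)
      e.symm.continuous.continuousAt (hXd (e.symm x)) (inv_ne_zero (hpos _).ne')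
      (Eventually.of_forall fun y => by rw [← he]; exact e.apply_symm_apply y)
    rwa [inv_inv] at h4

end Pool.Agent.H86.PE
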