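import Pool.Agent.H86.PE.Quad

/-!
# Solutions of the weighted pendulum equation on the half line, built by prepending segments

The weight takes the three values `1`, `s`, `s/κ` (`s > 1 > κ > 0`). At the beginning of each piece the
solution is an integer multiple of `π`, with momentum `a φ' = ± s`.
-/

namespace Pool.Agent.H86.PE

open MeasureTheory Set Filter Real
open scoped Topology

/-- `φ` takes the values in the list `L`, in this order, at increasing times after `t`. -/
def Vis (φ : ℝ → ℝ) : ℝ → List ℝ → Prop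
  | _, [] => True
  | t, c :: L => ∃ x, t < x ∧ φ x = c ∧ Vis φ x L

theorem Vis.shift {φ ψ : ℝ → ℝ} {T : ℝ} (h : ∀ x, 0 < x → ψ (x + T) = φ x) :
    ∀ (L : List ℝ) (t : ℝ), 0 ≤ t → Vis φ t L → Vis ψ (t + T) L
  | [], _, _, _ => trivial
  | c :: L, t, ht, ⟨x, hx, hc, hL⟩ =>
    ⟨x + T, by linarith, by rw [h x (ht.trans_lt hx), hc],
      Vis.shift h L x (ht.trans hx.le) hL⟩

theorem Vis.anti {φ : ℝ → ℝ} {t t' : ℝ} (h : t' ≤ t) : ∀ {L : List ℝ}, Vis φ t L → Vis φ t' L
  | [], _ => trivial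
  | _ :: _, ⟨x, hx, hc, hL⟩ => ⟨x, h.trans_lt hx, hc, hL⟩

/-- a piece with constant weight from `n π`, momentum `σ s`, to `n' π`, momentum `σ' s` -/
def Seg (s κ : ℝ) (n : ℤ) (σ : ℤ) (n' : ℤ) (σ' : ℤ) : Prop :=
  ∃ (T A : ℝ) (φ p : ℝ → ℝ), 0 < T ∧ (A = 1 ∨ A = s ∨ A = s / κ) ∧ Continuous φ ∧ Continuous p ∧
    (∀ x, HasDerivAt φ (p x / A) x ∧ HasDerivAt p (-(A * (sin (φ x) * cos (φ x)))) x) ∧
    φ 0 = n * π ∧ p 0 = σ * s ∧ φ T = n' * π ∧ p T = σ' * s

/-- a solution on the half line from `n π`, momentum `σ s`, with the limit `π / 2` -/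
def Tail (s κ : ℝ) (n : ℤ) (σ : ℤ) (L : List ℝ) : Prop :=
  ∃ φ p a : ℝ → ℝ, Continuous φ ∧ Continuous p ∧ Measurable a ∧
    (∀ x, a x = 1 ∨ a x = s ∨ a x = s / κ) ∧
    (∃ S : Set ℝ, S.Countable ∧ ∀ x, 0 < x → x ∉ S → HasDerivAt φ (p x / a x) x ∧
      HasDerivAt p (-(a x * (sin (φ x) * cos (φ x)))) x) ∧
    φ 0 = n * π ∧ p 0 = σ * s ∧ Tendsto φ atTop (𝓝 (π / 2)) ∧
    IntegrableOn (fun x => p x ^ 2) (Ioi 0) ∧ Vis φ 0 L

theorem sin_cos_shift (x : ℝ) (n : ℤ) :
    sin (n * π + x) * cos (n * π + x) = sin x * cos x := by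
  have h1 : sin (2 * (n * π + x)) = sin (2 * x) := by
    have : 2 * (n * π + x) = 2 * x + n * (2 * π) := by ring
    rw [this, sin_add_int_mul_two_pi]
  rw [sin_two_mul, sin_two_mul] at h1
  linarith

/-- rotation by `k` half turns -/
theorem seg_rot {s κ : ℝ} (hs : 1 < s) (n : ℤ) (σ : ℤ) (hσ : σ = 1 ∨ σ = -1) (k : ℕ) (hk : 0 < k) :
    Seg s κ n σ (n + σ * k) σ := by
  have hs2 : ∀ y : ℝ, 0 < s ^ 2 - sin y ^ 2 := fun y => by
    have := sin_sq_le_one y
    nlinarith
  obtain ⟨R, hR0, hmono, hsurj, hR⟩ := exists_quad (fun y => √(s ^ 2 - sin y ^ 2))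
    (by fun_prop) (√(s ^ 2 - 1)) s (sqrt_pos.mpr (by nlinarith))
    (fun y => sqrt_le_sqrt (by have := sin_sq_le_one y; linarith))
    (fun y => by
      rw [sqrt_le_left (by linarith)]
      nlinarith [sq_nonneg (sin y)])
  have hRc : Continuous R := continuous_iff_continuousAt.2 fun x => (hR x).continuousAt
  obtain ⟨T, hT⟩ := hsurj (k * π)
  have hTpos : 0 < T := by
    have : R 0 < R T := by
      rw [hR0, hT]; have := pi_pos; positivity
    exact hmono.lt_iff_lt.mp this
  have hσ2 : (σ : ℝ) = 1 ∨ (σ : ℝ) = -1 := by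
    rcases hσ with h | h <;> simp [h]
  refine ⟨T, 1, fun x => n * π + σ * R x, fun x => σ * √(s ^ 2 - sin (R x) ^ 2), hTpos,
    Or.inl rfl, by fun_prop, by fun_prop, fun x => ⟨?_, ?_⟩, ?_, ?_, ?_, ?_⟩
  · have := ((hR x).const_mul (σ : ℝ)).const_add (n * π)
    simpa using this
  · have hsin : HasDerivAt (fun x => s ^ 2 - sin (R x) ^ 2)
        (-(2 * sin (R x) * (cos (R x) * √(s ^ 2 - sin (R x) ^ 2)))) x := by
      have h1 := (((hR x).sin).pow 2).const_sub (s ^ 2)
      refine h1.congr_deriv ?_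
      simp
    have h2 := (hsin.sqrt (hs2 _).ne').const_mul (σ : ℝ)
    refine h2.congr_deriv ?_
    have hsq : √(s ^ 2 - sin (R x) ^ 2) ≠ 0 := (sqrt_pos.mpr (hs2 _)).ne'
    have h3 : sin (n * π + σ * R x) * cos (n * π + σ * R x) = σ * (sin (R x) * cos (R x)) := by
      rw [sin_cos_shift]
      rcases hσ2 with h | h <;> simp [h]
    rw [h3]
    field_simp
  · simp [hR0]
  · simp [hR0, sqrt_sq (by linarith : (0 : ℝ) ≤ s)]
  · push_cast
    simp only [hT]
    ring
  · simp only [hT, sin_nat_mul_pi]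
    simp [sqrt_sq (by linarith : (0 : ℝ) ≤ s)]

/-- the reversal of the direction -/
theorem seg_bump {s κ : ℝ} (hs : 1 < s) (hκ : 0 < κ) (hκ1 : κ < 1) (n : ℤ) (σ : ℤ)
    (hσ : σ = 1 ∨ σ = -1) : Seg s κ n σ n (-σ) := by
  have hs2 : ∀ y : ℝ, 0 < 1 - (κ * sin y) ^ 2 := fun y => by
    have h1 := sin_sq_le_one y
    have h2 : κ ^ 2 < 1 := by nlinarith
    rw [mul_pow]
    nlinarith [sq_nonneg κ]
  obtain ⟨u, hu0, hmono, hsurj, hu⟩ := exists_quad (fun y => √(1 - (κ * sin y) ^ 2))
    (by fun_prop) (√(1 - κ ^ 2)) 1 (sqrt_pos.mpr (by nlinarith))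
    (fun y => sqrt_le_sqrt (by
      have := sin_sq_le_one y
      rw [mul_pow]
      nlinarith [sq_nonneg κ]))
    (fun y => by
      rw [sqrt_le_left (by linarith)]
      nlinarith [sq_nonneg (κ * sin y)])
  have huc : Continuous u := continuous_iff_continuousAt.2 fun x => (hu x).continuousAt
  obtain ⟨T, hT⟩ := hsurj π
  have hTpos : 0 < T := by
    have : u 0 < u T := by
      rw [hu0, hT]; exact pi_pos
    exact hmono.lt_iff_lt.mp this
  have hσ2 : (σ : ℝ) = 1 ∨ (σ : ℝ) = -1 := by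
    rcases hσ with h | h <;> simp [h]
  have habs : ∀ y : ℝ, |κ * sin y| < 1 := fun y => by
    rw [abs_mul, abs_of_pos hκ]
    have := abs_sin_le_one y
    nlinarith [abs_nonneg (sin y)]
  refine ⟨T, s / κ, fun x => n * π + σ * arcsin (κ * sin (u x)), fun x => σ * (s * cos (u x)), hTpos,
    Or.inr (Or.inr rfl), ?_, by fun_prop, fun x => ⟨?_, ?_⟩, ?_, ?_, ?_, ?_⟩
  · exact continuous_const.add (continuous_const.mul
      (continuous_arcsin.comp (continuous_const.mul (continuous_sin.comp huc))))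
  · have h1 : HasDerivAt (fun x => κ * sin (u x)) (κ * (cos (u x) * √(1 - (κ * sin (u x)) ^ 2))) x :=
      ((hu x).sin).const_mul κ
    have h2 := (hasDerivAt_arcsin (x := κ * sin (u x)) (abs_lt.mp (habs _)).1.ne'
      (abs_lt.mp (habs _)).2.ne).comp x h1
    have h3 := (h2.const_mul (σ : ℝ)).const_add (n * π)
    refine h3.congr_deriv ?_
    have hsq : √(1 - (κ * sin (u x)) ^ 2) ≠ 0 := (sqrt_pos.mpr (hs2 _)).ne'
    have hs' : s ≠ 0 := by linarith
    generalize √(1 - (κ * sin (u x)) ^ 2) = q at hsq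
    field_simp
  · have h1 := ((((hu x).cos).const_mul s).const_mul (σ : ℝ))
    refine h1.congr_deriv ?_
    have h3 : sin (n * π + σ * arcsin (κ * sin (u x))) * cos (n * π + σ * arcsin (κ * sin (u x))) =
        σ * (κ * sin (u x) * √(1 - (κ * sin (u x)) ^ 2)) := by
      rw [sin_cos_shift]
      have h4 := (abs_lt.mp (habs (u x)))
      rcases hσ2 with h | h
      · simp only [h, one_mul]
        rw [sin_arcsin h4.1.le h4.2.le, cos_arcsin]
      · simp only [h, neg_mul, one_mul, sin_neg, cos_neg]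
        rw [sin_arcsin h4.1.le h4.2.le, cos_arcsin]
    rw [h3]
    field_simp
  · simp [hu0]
  · simp [hu0]
  · simp [hT]
  · simp [hT]

/-- the last piece -/
theorem tail_nil {s κ : ℝ} (hs : 1 < s) : Tail s κ 0 1 [] := by
  have hs0 : s ≠ 0 := by linarith
  have hc : ∀ x : ℝ, 0 < cosh x := cosh_pos
  refine ⟨fun x => arctan (sinh x), fun x => s / cosh x, fun _ => s, ?_, ?_, measurable_const,
    fun _ => Or.inr (Or.inl rfl), ⟨∅, countable_empty, fun x _ _ => ⟨?_, ?_⟩⟩, by simp, by simp,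
    ?_, ?_, trivial⟩
  · exact continuous_arctan.comp continuous_sinh
  · exact continuous_const.div continuous_cosh fun x => (hc x).ne'
  · have h1 := (hasDerivAt_sinh x).arctan
    refine h1.congr_deriv ?_
    have h2 : 1 + sinh x ^ 2 = cosh x ^ 2 := by rw [cosh_sq]; ring
    rw [h2]
    have := (hc x).ne'
    field_simp
  · have h1 := (hasDerivAt_const x s).div (hasDerivAt_cosh x) (hc x).ne'
    refine h1.congr_deriv ?_
    have h3 : sin (arctan (sinh x)) * cos (arctan (sinh x)) = sinh x / cosh x ^ 2 := by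
      rw [sin_arctan, cos_arctan]
      have h2 : 1 + sinh x ^ 2 = cosh x ^ 2 := by rw [cosh_sq]; ring
      rw [h2, sqrt_sq (hc x).le]
      have := (hc x).ne'
      field_simp
    rw [h3]
    have := (hc x).ne'
    field_simp
    ring
  · have h1 : Tendsto sinh atTop atTop := by
      have : Tendsto (fun x : ℝ => x) atTop atTop := tendsto_id
      refine tendsto_atTop_mono' atTop ?_ this
      filter_upwards [eventually_ge_atTop 0] with x hx
      exact self_le_sinh_iff.mpr hx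
    exact (tendsto_nhds_of_tendsto_nhdsWithin tendsto_arctan_atTop).comp h1
  · have h1 : IntegrableOn (fun x : ℝ => (4 * s ^ 2) * rexp (-2 * x)) (Ioi 0) :=
      (exp_neg_integrableOn_Ioi 0 (by norm_num : (0 : ℝ) < 2)).const_mul _
    refine Integrable.mono' h1 ?_ (Eventually.of_forall fun x => ?_)
    · exact ((continuous_const.div continuous_cosh fun x => (hc x).ne').pow 2).aestronglyMeasurable
    · have h2 : rexp x / 2 ≤ cosh x := by
        rw [cosh_eq]
        have := exp_pos (-x)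
        linarith
      have h3 : (s / cosh x) ^ 2 ≤ (4 * s ^ 2) * rexp (-2 * x) := by
        rw [div_pow, div_le_iff₀ (by positivity)]
        have h4 : rexp (-2 * x) * (rexp x / 2) ^ 2 = 1 / 4 := by
          rw [div_pow, ← exp_nat_mul, mul_div_assoc', ← exp_add]
          norm_num
        have h5 : (rexp x / 2) ^ 2 ≤ cosh x ^ 2 := pow_le_pow_left₀ (by positivity) h2 2
        have h6 : rexp (-2 * x) * (rexp x / 2) ^ 2 ≤ rexp (-2 * x) * cosh x ^ 2 :=
          mul_le_mul_of_nonneg_left h5 (exp_pos _).le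
        rw [h4] at h6
        nlinarith [sq_nonneg s]
      rw [norm_of_nonneg (by positivity)]
      exact h3

/-- prepending a piece -/
theorem prepend_aux {s κ : ℝ} {n n' σ σ' : ℤ} {L : List ℝ}
    (h : Seg s κ n σ n' σ') (hT : Tail s κ n' σ' L) :
    ∃ T : ℝ, 0 < T ∧ ∃ φ p a : ℝ → ℝ, Continuous φ ∧ Continuous p ∧ Measurable a ∧
    (∀ x, a x = 1 ∨ a x = s ∨ a x = s / κ) ∧
    (∃ S : Set ℝ, S.Countable ∧ ∀ x, 0 < x → x ∉ S → HasDerivAt φ (p x / a x) x ∧
      HasDerivAt p (-(a x * (sin (φ x) * cos (φ x)))) x) ∧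
    φ 0 = n * π ∧ p 0 = σ * s ∧ φ T = n' * π ∧ Tendsto φ atTop (𝓝 (π / 2)) ∧
    IntegrableOn (fun x => p x ^ 2) (Ioi 0) ∧ Vis φ T L := by
  obtain ⟨T, A, φ₁, p₁, hT0, hA, hφ₁, hp₁, hd₁, h1, h2, h3, h4⟩ := h
  obtain ⟨φ₂, p₂, a₂, hφ₂, hp₂, ha₂, hv, ⟨S, hS, hd₂⟩, h5, h6, h7, h8, h9⟩ := hT
  refine ⟨T, hT0, fun x => if x ≤ T then φ₁ x else φ₂ (x - T),
    fun x => if x ≤ T then p₁ x else p₂ (x - T), fun x => if x ≤ T then A else a₂ (x - T),
    ?_, ?_, ?_, ?_, ⟨{T} ∪ (fun x => x + T) '' S, ?_, ?_⟩, ?_, ?_, ?_, ?_, ?_, ?_⟩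
  · refine Continuous.if_le hφ₁ (hφ₂.comp (continuous_id.sub continuous_const)) continuous_id
      continuous_const ?_
    rintro x rfl
    simp [h3, h5]
  · refine Continuous.if_le hp₁ (hp₂.comp (continuous_id.sub continuous_const)) continuous_id
      continuous_const ?_
    rintro x rfl
    simp [h4, h6]
  · exact Measurable.ite measurableSet_Iic measurable_const
      (ha₂.comp (measurable_id.sub measurable_const))
  · intro x
    by_cases hx : x ≤ T
    · simp only [hx, if_true]; exact hA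
    · simp only [hx, if_false]; exact hv _
  · exact (countable_singleton T).union (hS.image _)
  · intro x hx hxS
    have hxT : x ≠ T := fun hh => hxS (Or.inl hh)
    rcases lt_or_gt_of_ne hxT with hlt | hgt
    · have he : ∀ᶠ y in 𝓝 x, y ≤ T := by
        filter_upwards [Iio_mem_nhds hlt] with y hy using hy.le
      simp only [hlt.le, if_true]
      refine ⟨(hd₁ x).1.congr_of_eventuallyEq ?_, (hd₁ x).2.congr_of_eventuallyEq ?_⟩
      · filter_upwards [he] with y hy using if_pos hy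
      · filter_upwards [he] with y hy using if_pos hy
    · have he : ∀ᶠ y in 𝓝 x, ¬ y ≤ T := by
        filter_upwards [Ioi_mem_nhds hgt] with y hy using not_le.mpr hy
      simp only [not_le.mpr hgt, if_false]
      have hx2 : 0 < x - T := by linarith
      have hx3 : x - T ∉ S := fun hh => hxS (Or.inr ⟨x - T, hh, by ring⟩)
      have hsub : HasDerivAt (fun y : ℝ => y - T) 1 x := (hasDerivAt_id x).sub_const T
      refine ⟨?_, ?_⟩
      · have h10 := (hd₂ (x - T) hx2 hx3).1.comp x hsub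
        rw [mul_one] at h10
        refine h10.congr_of_eventuallyEq ?_
        filter_upwards [he] with y hy using if_neg hy
      · have h10 := (hd₂ (x - T) hx2 hx3).2.comp x hsub
        rw [mul_one] at h10
        refine h10.congr_of_eventuallyEq ?_
        filter_upwards [he] with y hy using if_neg hy
  · simp [hT0.le, h1]
  · simp [hT0.le, h2]
  · simp [h3]
  · have h10 : Tendsto (fun x : ℝ => φ₂ (x - T)) atTop (𝓝 (π / 2)) :=
      h7.comp (tendsto_atTop_add_const_right _ (-T) tendsto_id)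
    refine h10.congr' ?_
    filter_upwards [eventually_gt_atTop T] with x hx
    rw [if_neg (not_le.mpr hx)]
  · have hset : Ioi (0 : ℝ) = Ioc 0 T ∪ Ioi T := (Ioc_union_Ioi_eq_Ioi hT0.le).symm
    rw [hset]
    refine IntegrableOn.union ?_ ?_
    · have h10 : IntegrableOn (fun x => p₁ x ^ 2) (Ioc 0 T) :=
        ((hp₁.pow 2).integrableOn_Icc (a := 0) (b := T)).mono_set Ioc_subset_Icc_self
      refine h10.congr_fun (fun x hx => ?_) measurableSet_Ioc
      simp only [hx.2, if_true]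
    · have h10 : IntegrableOn (fun x => p₂ (x - T) ^ 2) (Ioi T) := by
        have h11 := ((measurePreserving_sub_right volume T).integrableOn_comp_preimage
          (measurableEmbedding_subRight T) (f := fun x => p₂ x ^ 2) (s := Ioi 0)).mpr h8
        have h12 : (fun x : ℝ => x - T) ⁻¹' Ioi 0 = Ioi T := by
          ext x; simp
        rw [h12] at h11
        exact h11
      refine h10.congr_fun (fun x hx => ?_) measurableSet_Ioi
      have hx' : ¬ x ≤ T := not_le.mpr hx
      simp only [hx', if_false]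
  · have h10 := Vis.shift (φ := φ₂) (ψ := fun x => if x ≤ T then φ₁ x else φ₂ (x - T)) (T := T)
      (fun x hx => by
        have : ¬ (x + T ≤ T) := by linarith
        simp only [this, if_false, add_sub_cancel_right]) L 0 le_rfl h9
    simpa using h10

theorem Tail.prepend {s κ : ℝ} {n n' σ σ' : ℤ} {L : List ℝ}
    (h : Seg s κ n σ n' σ') (hT : Tail s κ n' σ' L) : Tail s κ n σ L := by
  obtain ⟨T, hT0, φ, p, a, h1, h2, h3, h4, h5, h6, h7, -, h8, h9, h10⟩ := prepend_aux h hT
  exact ⟨φ, p, a, h1, h2, h3, h4, h5, h6, h7, h8, h9, h10.anti hT0.le⟩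

theorem Tail.prepend_visit {s κ : ℝ} {n n' σ σ' : ℤ} {L : List ℝ} {c : ℝ}
    (h : Seg s κ n σ n' σ') (hT : Tail s κ n' σ' L) (hc1 : n' * π < c) (hc2 : c < n * π) :
    Tail s κ n σ (c :: L) := by
  obtain ⟨T, hT0, φ, p, a, h1, h2, h3, h4, h5, h6, h7, h71, h8, h9, h10⟩ := prepend_aux h hT
  refine ⟨φ, p, a, h1, h2, h3, h4, h5, h6, h7, h8, h9, ?_⟩
  have hivt : c ∈ φ '' Ioo 0 T := by
    have := intermediate_value_Ioo' hT0.le h1.continuousOn
    rw [h6, h71] at this
    exact this ⟨hc1, hc2⟩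
  obtain ⟨x, hx, hxc⟩ := hivt
  exact ⟨x, hx.1, hxc, h10.anti hx.2.le⟩

/-- solutions which visit every list -/
theorem exists_tail {s κ : ℝ} (hs : 1 < s) (hκ : 0 < κ) (hκ1 : κ < 1) :
    ∀ L : List ℝ, Tail s κ 0 1 L
  | [] => tail_nil hs
  | c :: L => by
    have ih := exists_tail hs hκ hκ1 L
    obtain ⟨k, hk⟩ := exists_nat_gt (|c| / π)
    have hpi := pi_pos
    have hk0 : 0 < k := by
      have : (0 : ℝ) < k := lt_of_le_of_lt (by positivity) hk
      exact_mod_cast this
    have hk1 : |c| < k * π := (div_lt_iff₀ hpi).mp hk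
    have hc := abs_lt.mp hk1
    -- up from `-k π` to `0`
    have t1 : Tail s κ (-k) 1 L := by
      refine Tail.prepend (seg_rot hs (-k) 1 (Or.inl rfl) k hk0) ?_
      simpa using ih
    have t2 : Tail s κ (-k) (-1) L :=
      Tail.prepend (seg_bump hs hκ hκ1 (-k) (-1) (Or.inr rfl)) (by simpa using t1)
    have t3 : Tail s κ k (-1) (c :: L) := by
      refine Tail.prepend_visit (seg_rot hs k (-1) (Or.inr rfl) (2 * k) (by omega)) ?_ ?_ ?_
      · have : ((k : ℤ) + -1 * ((2 * k : ℕ) : ℤ)) = -k := by push_cast; ring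
        rw [this]
        exact t2
      · push_cast
        linarith [hc.1]
      · push_cast
        linarith [hc.2]
    have t4 : Tail s κ k 1 (c :: L) :=
      Tail.prepend (seg_bump hs hκ hκ1 k 1 (Or.inl rfl)) (by simpa using t3)
    refine Tail.prepend (seg_rot hs 0 1 (Or.inl rfl) k hk0) ?_
    simpa using t4

end Pool.Agent.H86.PE
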